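import Mathlib

set_option autoImplicit false

/-!
Contrapositive symmetries of fuzzy implications: (CP) and (L-CP) force (R-CP), for every fuzzy
negation, strong or not.
-/

namespace Pool.Agent.Results.MP_478a43_lc.ContrapositionNegative

/-- A fuzzy negation: a non-increasing map `N : [0,1] → [0,1]` with `N 0 = 1` and `N 1 = 0`. -/
structure IsFuzzyNegation (N : unitInterval → unitInterval) : Prop where
  antitone : Antitone N
  map_zero : N 0 = 1
  map_one : N 1 = 0

/-- A fuzzy implication: a map `I : [0,1]² → [0,1]`, non-increasing in its first variable,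
non-decreasing in its second one, with `I(0,0) = I(1,1) = 1` and `I(1,0) = 0`. -/
structure IsFuzzyImplication (I : unitInterval → unitInterval → unitInterval) : Prop where
  antitone_left : ∀ y, Antitone fun x => I x y
  monotone_right : ∀ x, Monotone fun y => I x y
  zero_zero : I 0 0 = 1
  one_one : I 1 1 = 1
  one_zero : I 1 0 = 0

/-- (CP): `I(x,y) = I(N(y),N(x))` for all `x, y`. -/
def CP (I : unitInterval → unitInterval → unitInterval) (N : unitInterval → unitInterval) :
    Prop :=
  ∀ x y, I x y = I (N y) (N x)

/-- (L-CP): `I(N(x),y) = I(N(y),x)` for all `x, y`. -/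
def LCP (I : unitInterval → unitInterval → unitInterval) (N : unitInterval → unitInterval) :
    Prop :=
  ∀ x y, I (N x) y = I (N y) x

/-- (R-CP): `I(x,N(y)) = I(y,N(x))` for all `x, y`. -/
def RCP (I : unitInterval → unitInterval → unitInterval) (N : unitInterval → unitInterval) :
    Prop :=
  ∀ x y, I x (N y) = I y (N x)

/-- There is no fuzzy implication `I` and fuzzy negation `N` such that `I` satisfies (CP) and
(L-CP) with respect to `N` but does not satisfy (R-CP) with respect to `N`. -/
theorem result :
    ¬ ∃ (I : unitInterval → unitInterval → unitInterval) (N : unitInterval → unitInterval),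
      IsFuzzyImplication I ∧ IsFuzzyNegation N ∧ CP I N ∧ LCP I N ∧ ¬ RCP I N := by
  rintro ⟨I, N, -, -, hCP, hL, hR⟩
  apply hR
  intro x y
  calc I x (N y) = I (N (N y)) (N x) := hCP x (N y)
    _ = I (N (N x)) (N y) := hL (N y) (N x)
    _ = I y (N x) := (hCP y (N x)).symm

end Pool.Agent.Results.MP_478a43_lc.ContrapositionNegative
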